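import Pool.Agent.H16.CX.Basic

/-!
# A relation with countable classes has perfectly many classes (module CCT)
-/

set_option autoImplicit false

open Set Topology Filter MeasureTheory

namespace Pool.Agent.H11.CX

open Pool.Agent.H16.CX Pool.Agent.H71

attribute [local instance] Pool.Agent.H71.permTop Pool.Agent.H71.polishSpace_perm
  Pool.Agent.H71.permMeas Pool.Agent.H71.borelSpace_perm

theorem pf_cct : T_CCT := by
  intro X _ _ _ _ R f hf hc
  obtain ⟨M, hM⟩ : ∃ M : Set (((ℕ → Bool) × (ℕ → Bool)) × Equiv.Perm ℕ),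
    M = {p | R.res (pe p.2) (f p.1.1) = f p.1.2} := ⟨_, rfl⟩
  have hMm : MeasurableSet M := by
    rw [hM]
    refine measurableSet_eq_fun ?_ (hf.comp (measurable_snd.comp measurable_fst))
    have h1 : Measurable fun p : ((ℕ → Bool) × (ℕ → Bool)) × Equiv.Perm ℕ =>
        ((p.2, f p.1.1) : Equiv.Perm ℕ × X) :=
      measurable_snd.prodMk (hf.comp (measurable_fst.comp measurable_fst))
    exact (continuous_act R).measurable.comp h1
  have hR : AnalyticSet {x : (ℕ → Bool) × (ℕ → Bool) | ∃ y, (x, y) ∈ M} := DST.analyticSet_proj hMm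
  obtain ⟨φ, hφ, -, hφ'⟩ := DST.exists_perfect_of_countable_sections hR (by
    intro s
    refine (hc s).mono ?_
    rintro t ⟨g, hg⟩
    rw [hM] at hg
    exact ⟨g, hg⟩)
  refine ⟨fun s => f (φ s), hf.comp hφ.measurable, ?_⟩
  rintro s t hst ⟨g, hg⟩
  refine hφ' s t hst ⟨g, ?_⟩
  rw [hM]
  exact hg

end Pool.Agent.H11.CX
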