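import Pool.Agent.H16.CX.Targets2
import Pool.Agent.H3.CX.UNI

/-!
# Relatively compact local orbits are tame (module TMC)
-/

set_option autoImplicit false

open Set Topology Filter MeasureTheory

namespace Pool.Agent.H11.CX

open Pool.Agent.H16.CX

attribute [local instance] Pool.Agent.H71.permTop

theorem pf_tmc : T_TMC := by
  intro X _ _ hc x hx
  obtain ⟨k, hK⟩ := hx
  refine ⟨k, hK.isComplete, fun e he => ?_⟩
  have hF : Continuous fun p : Equiv.Perm ℕ × X => dist (p.1 • p.2) p.2 :=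
    hc.dist continuous_snd
  have hO : IsOpen {p : Equiv.Perm ℕ × X | dist (p.1 • p.2) p.2 < e} :=
    isOpen_lt hF continuous_const
  have hsub : ({(1 : Equiv.Perm ℕ)} : Set (Equiv.Perm ℕ)) ×ˢ
      (closure {y : X | ∃ g ∈ VS k, g • x = y}) ⊆
      {p : Equiv.Perm ℕ × X | dist (p.1 • p.2) p.2 < e} := by
    rintro ⟨g, y⟩ ⟨hg, -⟩
    have hg' : g = 1 := hg
    subst hg'
    show dist ((1 : Equiv.Perm ℕ) • y) y < e
    rw [one_smul, dist_self]
    exact he
  obtain ⟨U, W, hU, -, hU1, hW, hUW⟩ := generalized_tube_lemma isCompact_singleton hK hO hsub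
  obtain ⟨n, hn⟩ := Pool.Agent.H3.CX.exists_VS (hU.mem_nhds (hU1 rfl))
  refine ⟨n, fun g hg h hh => ?_⟩
  have h1 : (g, h • x) ∈ U ×ˢ W := ⟨hn hg, hW (subset_closure ⟨h, hh, rfl⟩)⟩
  exact (show dist (g • (h • x)) (h • x) < e from hUW h1).le

end Pool.Agent.H11.CX
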