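import Pool.Agent.H16.CX.Basic

/-!
# The extension of an order indiscernible point to all linear orders (module ZED)
-/

set_option autoImplicit false

open Set Topology Filter MeasureTheory

namespace Pool.Agent.H11.CX

open Pool.Agent.H16.CX

/-- a strictly increasing map which sends the values of `b` below `n` to multiples of `M` -/
theorem exists_mono (b : ℕ ↪ ℕ) (n M : ℕ) (hM : ∀ j < n, b j < M) : ∃ i : ℕ ↪ ℕ, StrictMono i ∧
    ∀ j < n, i (b j) = M * ((Finset.range n).filter fun j' => b j' ≤ b j).card := by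
  classical
  let cn : ℕ → ℕ := fun x => ((Finset.range n).filter fun j' => b j' ≤ x).card
  let f : ℕ → ℕ := fun x => M * cn x + if ∃ j < n, b j = x then 0 else x + 1
  have hf : StrictMono f := by
    intro x y hxy
    have h1 : cn x ≤ cn y := Finset.card_le_card (by
      intro j hj
      rw [Finset.mem_filter] at hj ⊢
      exact ⟨hj.1, by omega⟩)
    have h1' : M * cn x ≤ M * cn y := Nat.mul_le_mul_left _ h1
    have h2 : (if ∃ j < n, b j = x then 0 else x + 1) ≤ x + 1 := by
      split_ifs <;> omega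
    by_cases hy : ∃ j < n, b j = y
    · obtain ⟨j, hj, hjy⟩ := hy
      have h3 : cn x < cn y := Finset.card_lt_card (by
        refine ⟨fun j hj => ?_, fun h => ?_⟩
        · rw [Finset.mem_filter] at hj ⊢
          exact ⟨hj.1, by omega⟩
        · have h4 : j ∈ (Finset.range n).filter fun j' => b j' ≤ y := by
            rw [Finset.mem_filter]
            exact ⟨Finset.mem_range.2 hj, by omega⟩
          have h5 := h h4
          rw [Finset.mem_filter] at h5
          omega)
      have h6 : M * (cn x + 1) ≤ M * cn y := Nat.mul_le_mul_left _ h3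
      have h7 := hM j hj
      show M * cn x + _ < M * cn y + _
      have h8 : M * (cn x + 1) = M * cn x + M := by ring
      omega
    · show M * cn x + _ < M * cn y + _
      rw [if_neg hy]
      omega
  refine ⟨⟨f, hf.injective⟩, hf, fun j hj => ?_⟩
  show M * cn (b j) + (if ∃ j' < n, b j' = b j then 0 else b j + 1) = _
  rw [if_pos ⟨j, hj, rfl⟩]
  rfl

/-- order isomorphic finite parts give nearby restrictions of an indiscernible point -/
theorem iso_dist {X : Type} [MetricSpace X] (R : RS X) (w : X)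
    (hw : ∀ i : ℕ ↪ ℕ, StrictMono i → R.res i w = w) {ε : ℝ} {n : ℕ}
    (hn : ∀ b c : ℕ ↪ ℕ, (∀ i < n, b i = c i) → ∀ x, dist (R.res b x) (R.res c x) ≤ ε)
    (b c : ℕ ↪ ℕ) (h : ∀ i < n, ∀ j < n, (b i < b j ↔ c i < c j)) :
    dist (R.res b w) (R.res c w) ≤ ε := by
  obtain ⟨M, hM⟩ : ∃ M : ℕ, ∀ i < n, b i < M ∧ c i < M := by
    refine ⟨(Finset.range n).sup (fun i => b i) + (Finset.range n).sup (fun i => c i) + 1,
      fun i hi => ?_⟩
    have h1 := Finset.le_sup (f := fun i => b i) (Finset.mem_range.2 hi)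
    have h2 := Finset.le_sup (f := fun i => c i) (Finset.mem_range.2 hi)
    omega
  obtain ⟨i, hi, hi2⟩ := exists_mono b n M fun j hj => (hM j hj).1
  obtain ⟨i', hi', hi2'⟩ := exists_mono c n M fun j hj => (hM j hj).2
  have e1 : R.res b w = R.res (b.trans i) w := by rw [R.comp, hw i hi]
  have e2 : R.res c w = R.res (c.trans i') w := by rw [R.comp, hw i' hi']
  rw [e1, e2]
  refine hn _ _ (fun j hj => ?_) w
  show i (b j) = i' (c j)
  rw [hi2 j hj, hi2' j hj]
  congr 2
  ext j'
  simp only [Finset.mem_filter, Finset.mem_range]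
  refine and_congr_right fun hj' => ?_
  have := h j hj j' hj'
  omega

open Classical in
/-- the rank of `i` among the first `n` elements for `i < n` -/
noncomputable def rk (L : ℕ → ℕ → Prop) (n i : ℕ) : ℕ :=
  if i < n then ((Finset.range n).filter fun j => L j i).card else i

theorem rk_lt {L : ℕ → ℕ → Prop} (hL : H16.CX.Ord L) {n i j : ℕ} (hi : i < n) (hj : j < n)
    (h : L i j) : rk L n i < rk L n j := by
  classical
  unfold rk
  rw [if_pos hi, if_pos hj]
  refine Finset.card_lt_card ⟨fun k hk => ?_, fun h' => ?_⟩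
  · rw [Finset.mem_filter] at hk ⊢
    exact ⟨hk.1, hL.2.1 _ _ _ hk.2 h⟩
  · have h1 : i ∈ (Finset.range n).filter fun k => L k j := by
      rw [Finset.mem_filter]
      exact ⟨Finset.mem_range.2 hi, h⟩
    have h2 := h' h1
    rw [Finset.mem_filter] at h2
    exact hL.1 i h2.2

theorem rk_lt_n {L : ℕ → ℕ → Prop} (hL : H16.CX.Ord L) {n i : ℕ} (hi : i < n) : rk L n i < n := by
  classical
  unfold rk
  rw [if_pos hi]
  have h1 : (Finset.range n).filter (fun j => L j i) ⊂ Finset.range n := by
    refine ⟨Finset.filter_subset _ _, fun h => ?_⟩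
    have h2 := h (Finset.mem_range.2 hi)
    rw [Finset.mem_filter] at h2
    exact hL.1 i h2.2
  have h3 := Finset.card_lt_card h1
  rwa [Finset.card_range] at h3

theorem rk_iff {L : ℕ → ℕ → Prop} (hL : H16.CX.Ord L) {n i j : ℕ} (hi : i < n) (hj : j < n) :
    rk L n i < rk L n j ↔ L i j := by
  constructor
  · intro h
    by_cases hij : i = j
    · subst hij
      exact absurd h (lt_irrefl _)
    · rcases hL.2.2 i j hij with h1 | h1
      · exact h1
      · have := rk_lt hL hj hi h1
        omega
  · exact rk_lt hL hi hj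

/-- the injection -/
noncomputable def bn (L : ℕ → ℕ → Prop) (hL : H16.CX.Ord L) (n : ℕ) : ℕ ↪ ℕ where
  toFun := rk L n
  inj' := by
    intro i j h
    by_cases hi : i < n
    · by_cases hj : j < n
      · by_contra hij
        rcases hL.2.2 i j hij with h1 | h1
        · have := rk_lt hL hi hj h1
          omega
        · have := rk_lt hL hj hi h1
          omega
      · have h1 := rk_lt_n hL hi
        have h2 : rk L n j = j := by
          unfold rk
          rw [if_neg hj]
        omega
    · have h1 : rk L n i = i := by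
        unfold rk
        rw [if_neg hi]
      by_cases hj : j < n
      · have h2 := rk_lt_n hL hj
        omega
      · have h2 : rk L n j = j := by
          unfold rk
          rw [if_neg hj]
        omega

theorem bn_iff {L : ℕ → ℕ → Prop} (hL : H16.CX.Ord L) {n i j : ℕ} (hi : i < n) (hj : j < n) :
    bn L hL n i < bn L hL n j ↔ L i j := rk_iff hL hi hj

theorem pf_zed : T_ZED := by
  classical
  intro X _ _ R Z w hZ hinv hwZ hw
  -- the limit
  have hlim : ∀ L, ∀ hL : H16.CX.Ord L, ∃ z, Tendsto (fun n => R.res (bn L hL n) w) atTop (𝓝 z) := by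
    intro L hL
    refine cauchySeq_tendsto_of_complete ?_
    refine Metric.cauchySeq_iff'.2 fun ε hε => ?_
    obtain ⟨n, hn⟩ := R.unif (ε / 2) (by positivity)
    refine ⟨n, fun m hm => ?_⟩
    refine lt_of_le_of_lt (iso_dist R w hw hn (bn L hL m) (bn L hL n) ?_) (by linarith)
    intro i hi j hj
    rw [bn_iff hL (by omega) (by omega), bn_iff hL hi hj]
  choose zl hzl using hlim
  obtain ⟨z, hz⟩ : ∃ z : (ℕ → ℕ → Prop) → X, z = fun L => if hL : H16.CX.Ord L then zl L hL else w :=
    ⟨_, rfl⟩
  have hzt : ∀ L, ∀ hL : H16.CX.Ord L, Tendsto (fun n => R.res (bn L hL n) w) atTop (𝓝 (z L)) := by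
    intro L hL
    rw [hz]
    simp only [dif_pos hL]
    exact hzl L hL
  -- approximation
  have happ : ∀ (ε : ℝ) (n : ℕ),
      (∀ b c : ℕ ↪ ℕ, (∀ i < n, b i = c i) → ∀ x, dist (R.res b x) (R.res c x) ≤ ε) →
      ∀ L, H16.CX.Ord L → ∀ b : ℕ ↪ ℕ, (∀ i < n, ∀ j < n, (b i < b j ↔ L i j)) →
      dist (R.res b w) (z L) ≤ ε := by
    intro ε n hn L hL b hb
    refine le_of_tendsto (Tendsto.dist tendsto_const_nhds (hzt L hL)) ?_
    filter_upwards [eventually_ge_atTop n] with m hm
    refine iso_dist R w hw hn b (bn L hL m) fun i hi j hj => ?_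
    rw [hb i hi j hj, bn_iff hL (by omega) (by omega)]
  have hzero : ∀ x y : X, (∀ ε > 0, dist x y ≤ ε) → x = y := by
    intro x y h
    refine eq_of_dist_eq_zero (le_antisymm (le_of_forall_pos_le_add fun ε hε => ?_) dist_nonneg)
    rw [zero_add]
    exact h ε hε
  refine ⟨z, ⟨?_, ?_, ?_⟩, ?_⟩
  · refine (hzero _ _ fun ε hε => ?_).symm
    obtain ⟨n, hn⟩ := R.unif ε hε
    have hlt : Ord (fun a b : ℕ => a < b) :=
      ⟨fun a => lt_irrefl a, fun a b c => lt_trans, fun a b h => by omega⟩
    have h1 := happ ε n hn _ hlt (Function.Embedding.refl ℕ) fun i _ j _ => Iff.rfl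
    rwa [R.one] at h1
  · intro L hL c
    have hL' : Ord (fun a b => L (c a) (c b)) :=
      ⟨fun a => hL.1 _, fun a b d => hL.2.1 _ _ _, fun a b h => hL.2.2 _ _ fun h' =>
        h (c.injective h')⟩
    refine hzero _ _ fun ε hε => ?_
    obtain ⟨n, hn⟩ := R.unif ε hε
    have h1 : Tendsto (fun m => R.res c (R.res (bn L hL m) w)) atTop (𝓝 (R.res c (z L))) :=
      ((R.cont c).tendsto _).comp (hzt L hL)
    refine le_of_tendsto (Tendsto.dist h1 tendsto_const_nhds) ?_
    obtain ⟨M, hM⟩ : ∃ M : ℕ, ∀ i < n, c i < M := by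
      refine ⟨(Finset.range n).sup (fun i => c i) + 1, fun i hi => ?_⟩
      have h2 := Finset.le_sup (f := fun i => c i) (Finset.mem_range.2 hi)
      omega
    filter_upwards [eventually_ge_atTop M] with m hm
    have h2 := happ ε n hn _ hL' (c.trans (bn L hL m)) (by
      intro i hi j hj
      have h3 := hM i hi
      have h4 := hM j hj
      exact bn_iff hL (by omega) (by omega))
    rwa [R.comp] at h2
  · intro ε hε
    obtain ⟨n, hn⟩ := R.unif (ε / 2) (by positivity)
    refine ⟨n, fun L L' hL hL' h => ?_⟩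
    have h1 := happ (ε / 2) n hn L hL (bn L hL n) fun i hi j hj => bn_iff hL hi hj
    have h2 := happ (ε / 2) n hn L' hL' (bn L hL n) fun i hi j hj => by
      rw [bn_iff hL hi hj, h i hi j hj]
    rw [dist_comm] at h1
    calc dist (z L) (z L') ≤ dist (z L) (R.res (bn L hL n) w) + dist (R.res (bn L hL n) w) (z L') :=
          dist_triangle _ _ _
      _ ≤ ε := by linarith
  · intro L hL
    refine hZ.mem_of_tendsto (hzt L hL) (Eventually.of_forall fun n => ?_)
    exact hinv _ (fun i hi => absurd hi (Nat.not_lt_zero i)) w hwZ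

end Pool.Agent.H11.CX
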